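import Pool.Agent.W321.SQ.Stm

set_option autoImplicit false

namespace Pool.Agent.W374.SQ

open Finset Pool.Agent.W321.SP Pool.Agent.W321.SQ

/-- vertices of the cluster -/
inductive IK {V : Type} (v : V) (par : V → V) (c₀ : V) (bad : V → Prop) : V → Prop
  | top : IK v par c₀ bad c₀
  | sub (x : V) (h : x ≠ v) (hp : par x = c₀) : IK v par c₀ bad x
  | step (x : V) (h : x ≠ v) (hk : IK v par c₀ bad (par x)) (hb : bad (par x)) : IK v par c₀ bad x

theorem IK.ne {V : Type} {v : V} {par : V → V} {c₀ : V} {bad : V → Prop} (h0 : c₀ ≠ v) {x : V}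
    (h : IK v par c₀ bad x) : x ≠ v := by
  cases h with
  | top => exact h0
  | sub _ h hp => exact h
  | step _ h hk hb => exact h

/-- the children -/
def ch {V : Type} [Fintype V] [DecidableEq V] (v : V) (par : V → V) (x : V) : Finset V :=
  univ.filter (fun y => y ≠ v ∧ par y = x)

theorem mem_ch {V : Type} [Fintype V] [DecidableEq V] {v : V} {par : V → V} {x y : V} :
    y ∈ ch v par x ↔ y ≠ v ∧ par y = x := by
  unfold ch
  simp

/-- a child of the root with a child -/
theorem exists_top {V : Type} (v : V) (par : V → V) (rk : V → ℕ) (hR : Rt V v par rk) :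
    ∀ (n : ℕ) (x : V), rk x ≤ n → x ≠ v → par x ≠ v →
      ∃ c₀ c₁ : V, c₀ ≠ v ∧ c₁ ≠ v ∧ par c₀ = v ∧ par c₁ = c₀ := by
  intro n
  induction n with
  | zero =>
    intro x hx hxv _
    have := hR.rp x hxv
    omega
  | succ n ih =>
    intro x hx hxv hpv
    by_cases h : par (par x) = v
    · exact ⟨par x, x, hpv, hxv, h, rfl⟩
    · refine ih (par x) ?_ hpv h
      have := hR.rp x hxv
      omega

theorem z_cl : ClStm := by
  classical
  intro V _ _ v par rk L M hR hL hM hne
  -- top of the cluster
  obtain ⟨c₀, c₁, h0v, h1v, hp0, hp1⟩ :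
      ∃ c₀ c₁ : V, c₀ ≠ v ∧ c₁ ≠ v ∧ par c₀ = v ∧ par c₁ = c₀ := by
    obtain ⟨x, hx⟩ := hne
    rw [Finset.mem_sdiff, Finset.mem_erase] at hx
    obtain ⟨⟨hxv, -⟩, hxL⟩ := hx
    by_cases hp : par x = v
    · rw [hL] at hxL
      have h2 : ¬ Chl V v par x := fun h => hxL ⟨hxv, hp, h⟩
      unfold Chl at h2
      push Not at h2
      obtain ⟨y, hyv, hy⟩ := h2
      exact ⟨x, y, hxv, hyv, hp, hy⟩
    · exact exists_top v par rk hR (rk x) x le_rfl hxv hp
  have hne10 : c₁ ≠ c₀ := by
    intro h
    rw [h] at hp1
    rw [hp0] at hp1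
    exact h0v hp1.symm
  set bad : V → Prop := fun x => (ch v par x).card ≠ 1 with hbad
  set K : Finset V := univ.filter (fun x => IK v par c₀ bad x) with hK
  have memK : ∀ x, x ∈ K ↔ IK v par c₀ bad x := fun x => by rw [hK]; simp
  set Gd : Finset V := (K.erase c₀).filter (fun x => (ch v par x).card = 1) with hGd
  have memG : ∀ x, x ∈ Gd ↔ (x ≠ c₀ ∧ x ∈ K) ∧ (ch v par x).card = 1 := fun x => by
    rw [hGd]; simp
  have hvK : v ∉ K := by
    rw [memK]
    intro h
    exact h.ne h0v rfl
  have hex : ∀ x, x ∈ Gd → ∃ y, ch v par x = {y} := fun x hx =>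
    Finset.card_eq_one.1 ((memG x).1 hx).2
  choose! d hd using hex
  have hd1 : ∀ x ∈ Gd, d x ≠ v ∧ par (d x) = x := fun x hx => by
    have : d x ∈ ch v par x := by rw [hd x hx]; exact Finset.mem_singleton_self _
    exact mem_ch.1 this
  refine ⟨K, Gd, c₀, c₁, d, ?_, ?_⟩
  · refine ⟨hvK, (memK _).2 IK.top, (memK _).2 (IK.sub c₁ h1v hp1), hne10, hp0, hp1, ?_, ?_, ?_,
      ?_, ?_, ?_, ?_⟩
    · intro x hx hx0
      rw [memK] at hx ⊢
      cases hx with
      | top => exact absurd rfl hx0
      | sub _ h hp => rw [hp]; exact IK.top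
      | step _ h hk hb => exact hk
    · intro x hx
      rw [memG] at hx
      rw [Finset.mem_erase]
      exact hx.1
    · intro x hx hxG y hyv hy
      rw [memK]
      by_cases hx0 : x = c₀
      · exact IK.sub y hyv (by rw [hy, hx0])
      · have hb : bad x := fun h => hxG ((memG x).2 ⟨⟨hx0, hx⟩, h⟩)
        refine IK.step y hyv ?_ ?_
        · rw [hy]; exact (memK x).1 hx
        · rw [hy]; exact hb
    · exact fun x hx => (hd1 x hx).1
    · exact fun x hx => (hd1 x hx).2
    · intro x hx hdK
      rw [memK] at hdK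
      have h1 := hd1 x hx
      have h2 := (memG x).1 hx
      generalize hw : d x = w at hdK
      cases hdK with
      | top =>
        rw [hw, hp0] at h1
        rw [← h1.2] at h2
        exact hvK h2.1.2
      | sub _ h hp =>
        rw [hw, hp] at h1
        exact h2.1.1 h1.2.symm
      | step _ h hk hb =>
        rw [hw] at h1
        rw [h1.2] at hb
        exact hb h2.2
    · intro x hx y hyv hy
      have h3 : y ∈ ch v par x := mem_ch.2 ⟨hyv, hy⟩
      rw [hd x hx, Finset.mem_singleton] at h3
      exact h3
  · -- counting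
    set Big : Finset V := univ.filter (fun x => x ≠ v ∧ 2 ≤ (ch v par x).card) with hBig
    set R' : Finset V := univ.filter (fun x => x ≠ v ∧ x ∉ L) with hR'
    have hsub : K ⊆ insert c₀ (insert c₁ (Big.biUnion (fun x => ch v par x))) := by
      intro x hx
      rw [Finset.mem_insert, Finset.mem_insert, Finset.mem_biUnion]
      by_cases hx0 : x = c₀
      · exact Or.inl hx0
      right
      -- parent of x has x as a child
      have hxK := (memK x).1 hx
      cases hxK with
      | top => exact absurd rfl hx0
      | sub _ h hp =>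
        have h3 : x ∈ ch v par c₀ := mem_ch.2 ⟨h, hp⟩
        have h4 : c₁ ∈ ch v par c₀ := mem_ch.2 ⟨h1v, hp1⟩
        by_cases h5 : 2 ≤ (ch v par c₀).card
        · exact Or.inr ⟨c₀, by rw [hBig]; simp [h0v, h5], h3⟩
        · left
          have h6 : (ch v par c₀).card ≤ 1 := by omega
          exact Finset.card_le_one.1 h6 x h3 c₁ h4
      | step _ h hk hb =>
        right
        have h3 : x ∈ ch v par (par x) := mem_ch.2 ⟨h, rfl⟩
        have h4 : 0 < (ch v par (par x)).card := Finset.card_pos.2 ⟨x, h3⟩
        refine ⟨par x, ?_, h3⟩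
        have h5 : par x ≠ v := by
          intro h6
          exact hvK ((memK v).2 (h6 ▸ hk))
        have h7 : (ch v par (par x)).card ≠ 1 := hb
        rw [hBig]
        simp only [Finset.mem_filter, Finset.mem_univ, true_and]
        exact ⟨h5, by omega⟩
    have hc1 : K.card ≤ 2 + ∑ x ∈ Big, (ch v par x).card := by
      refine (Finset.card_le_card hsub).trans ?_
      refine (Finset.card_insert_le _ _).trans ?_
      have h1 := Finset.card_insert_le c₁ (Big.biUnion (fun x => ch v par x))
      have h2 : (Big.biUnion (fun x => ch v par x)).card ≤ ∑ x ∈ Big, (ch v par x).card :=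
        Finset.card_biUnion_le
      omega
    have hc2 : ∑ x ∈ R', (ch v par x).card ≤ R'.card := by
      rw [← Finset.card_biUnion]
      · refine Finset.card_le_card ?_
        intro y hy
        rw [Finset.mem_biUnion] at hy
        obtain ⟨x, hx, hy⟩ := hy
        rw [mem_ch] at hy
        rw [hR'] at hx ⊢
        simp only [Finset.mem_filter, Finset.mem_univ, true_and] at hx ⊢
        refine ⟨hy.1, fun hyL => ?_⟩
        rw [hL] at hyL
        exact hx.1 (hy.2.symm.trans hyL.2.1)
      · intro x _ y _ hxy
        change Disjoint (ch v par x) (ch v par y)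
        rw [Finset.disjoint_left]
        intro z hz1 hz2
        rw [mem_ch] at hz1 hz2
        exact hxy (hz1.2.symm.trans hz2.2)
    have hBR : Big ⊆ R' := by
      intro x hx
      rw [hBig] at hx
      rw [hR']
      simp only [Finset.mem_filter, Finset.mem_univ, true_and] at hx ⊢
      refine ⟨hx.1, fun hxL => ?_⟩
      rw [hL] at hxL
      have h1 : 0 < (ch v par x).card := by omega
      obtain ⟨y, hy⟩ := Finset.card_pos.1 h1
      rw [mem_ch] at hy
      exact hxL.2.2 y hy.1 hy.2
    have hMR : M ⊆ R' := by
      intro x hx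
      rw [hM] at hx
      rw [hR']
      simp only [Finset.mem_filter, Finset.mem_univ, true_and]
      refine ⟨hx.1, fun hxL => ?_⟩
      rw [hL] at hxL
      exact hx.2.1 hxL.2.1
    have hc3 : ∑ x ∈ Big, (ch v par x).card + 2 * R'.card ≤
        2 * ∑ x ∈ R', (ch v par x).card + 2 * M.card := by
      have e1 : ∑ x ∈ Big, (ch v par x).card =
          ∑ x ∈ R', if x ∈ Big then (ch v par x).card else 0 := by
        rw [Finset.sum_ite_mem, Finset.inter_eq_right.2 hBR]
      have e2 : M.card = ∑ x ∈ R', if x ∈ M then 1 else 0 := by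
        rw [Finset.sum_ite_mem, Finset.inter_eq_right.2 hMR]
        simp
      have e3 : R'.card = ∑ x ∈ R', 1 := by simp
      rw [e1, e2, e3, Finset.mul_sum, Finset.mul_sum, Finset.mul_sum, ← Finset.sum_add_distrib,
        ← Finset.sum_add_distrib]
      refine Finset.sum_le_sum fun x hx => ?_
      rw [hR'] at hx
      simp only [Finset.mem_filter, Finset.mem_univ, true_and] at hx
      by_cases h1 : (ch v par x).card = 0
      · have h2 : x ∈ M := by
          rw [hM]
          have h3 : Chl V v par x := by
            intro y hyv hy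
            rw [Finset.card_eq_zero] at h1
            have : y ∈ ch v par x := mem_ch.2 ⟨hyv, hy⟩
            rw [h1] at this
            exact absurd this (Finset.notMem_empty _)
          refine ⟨hx.1, fun hp => hx.2 ((hL x).2 ⟨hx.1, hp, h3⟩), h3⟩
        rw [if_pos h2]
        split_ifs <;> omega
      · by_cases h2 : x ∈ Big
        · rw [if_pos h2]
          rw [hBig] at h2
          simp only [Finset.mem_filter, Finset.mem_univ, true_and] at h2
          split_ifs <;> omega
        · rw [if_neg h2]
          split_ifs <;> omega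
    omega

end Pool.Agent.W374.SQ
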